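import Pool.Agent.TH908.RD.Stm

set_option autoImplicit false

/-!
# RD-5: the projection onto `W T {ℓ ≤ t}` of a good vector has all its local spectrum there
-/

open MeasureTheory Metric Set Filter Topology

namespace Pool.Agent.TH227.RD.RD5

open Pool.Agent.TH908.RD
open Pool.Agent.TH908.IS (Loc)

section aux

variable {H : Type} [NormedAddCommGroup H] [InnerProductSpace ℂ H] [CompleteSpace H]

/-- vectors orthogonal to the generators are orthogonal to `W` -/
lemma mem_orth (T : H →L[ℂ] H) (K : Set ℂ) (v : H)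
    (h : ∀ u : H, (∀ a : ℂ, a ∉ K → Loc T u a) → inner ℂ u v = 0) : v ∈ (W T K)ᗮ := by
  have h1 : Submodule.span ℂ {x : H | ∀ a : ℂ, a ∉ K → Loc T x a} ≤ (Submodule.span ℂ {v})ᗮ := by
    rw [Submodule.span_le]
    intro u hu
    rw [SetLike.mem_coe, Submodule.mem_orthogonal]
    intro w hw
    obtain ⟨c, rfl⟩ := Submodule.mem_span_singleton.1 hw
    rw [inner_smul_left]
    have h2 : inner ℂ v u = 0 := by
      rw [← inner_conj_symm, h u hu]
      simp
    rw [h2, mul_zero]
  have h2 : W T K ≤ (Submodule.span ℂ {v})ᗮ :=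
    Submodule.topologicalClosure_minimal _ h1 (Submodule.isClosed_orthogonal _)
  rw [Submodule.mem_orthogonal]
  intro u hu
  have h3 := (Submodule.mem_orthogonal _ _).1 (h2 hu) v (Submodule.mem_span_singleton_self v)
  rw [← inner_conj_symm, h3]
  simp

lemma PP_zero (T : H →L[ℂ] H) (K : Set ℂ) (v : H) (h : v ∈ (W T K)ᗮ) : PP T K v = 0 :=
  (Submodule.starProjection_apply_eq_zero_iff _).2 h

lemma PP_mem (T : H →L[ℂ] H) (K : Set ℂ) (v : H) : PP T K v ∈ W T K :=
  Submodule.starProjection_apply_mem _ _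

lemma PP_adj (T : H →L[ℂ] H) (K : Set ℂ) : ContinuousLinearMap.adjoint (PP T K) = PP T K :=
  isSelfAdjoint_starProjection _

lemma loc_map (T P : H →L[ℂ] H) (hPT : P * T = T * P) (y : H) (a : ℂ) (h : Loc T y a) :
    Loc T (P y) a := by
  obtain ⟨δ, F, hδ, hF, hFz⟩ := h
  refine ⟨δ, fun z => P (F z), hδ, P.differentiable.comp_differentiableOn hF, fun z hz => ?_⟩
  have e : T (P (F z)) = P (T (F z)) := by
    have := congrArg (fun f : H →L[ℂ] H => f (F z)) hPT
    simpa using this.symm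
  show z • P (F z) - T (P (F z)) = P y
  rw [e, ← hFz z hz, map_sub, map_smul]

end aux

theorem main (h1 : St_1) (h2 : St_2) (h3 : St_3) (h4 : St_4) : St_5 := by
  intro H _ _ _ T σ ℓ x hℓ hRed hx htot t a hta
  obtain ⟨hRed', hSV, -⟩ := h1 H T hRed
  obtain ⟨-, hSV', -⟩ := h1 H (ContinuousLinearMap.adjoint T) hRed'
  obtain ⟨s, hts, hsa⟩ := exists_between hta
  obtain ⟨t', hst', ht'a⟩ := exists_between hsa
  set T' : H →L[ℂ] H := ContinuousLinearMap.adjoint T with hT'
  set P : H →L[ℂ] H := PP T {z | ℓ z ≤ t} with hP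
  set P2 : H →L[ℂ] H := PP T {z | t' ≤ ℓ z} with hP2
  set Q : H →L[ℂ] H := PP T' {w | s ≤ ℓ (starRingEnd ℂ w)} with hQ
  have hconj : Continuous (fun w : ℂ => starRingEnd ℂ w) := Complex.continuous_conj
  -- (1)
  have e1 : ∀ y, P (Q y) = 0 := by
    intro y
    apply PP_zero
    apply mem_orth
    intro u hu
    have h5 : u ∈ (W T' {w | s ≤ ℓ (starRingEnd ℂ w)})ᗮ := by
      apply mem_orth
      intro v hv
      have h6 := h4 H T hSV hSV' {z | ℓ z ≤ t} {z | s ≤ ℓ z}
        (Set.disjoint_left.2 fun z hz1 hz2 => by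
          have h7 : ℓ z ≤ t := hz1
          have h8 : s ≤ ℓ z := hz2
          linarith) u v hu (fun b hb => hv _ (by
          intro hc
          apply hb
          have hc' : s ≤ ℓ (starRingEnd ℂ (starRingEnd ℂ b)) := hc
          rw [Complex.conj_conj] at hc'
          exact hc'))
      rw [← inner_conj_symm, h6]
      simp
    have h7 := (Submodule.mem_orthogonal _ _).1 h5 (Q y) (PP_mem _ _ _)
    rw [← inner_conj_symm, h7]
    simp
  -- (2)
  have e2 : P2 = P2 * Q := by
    have hdense : Dense ((Submodule.span ℂ {y : H | Good T' σ y} : Submodule ℂ H) : Set H) :=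
      Submodule.dense_iff_topologicalClosure_eq_top.2 htot
    refine ContinuousLinearMap.ext_on hdense fun y hy => ?_
    show P2 y = P2 (Q y)
    rw [← sub_eq_zero, ← map_sub]
    apply PP_zero
    apply mem_orth
    intro u hu
    refine h4 H T hSV hSV' {z | t' ≤ ℓ z} {z | ℓ z ≤ s}
        (Set.disjoint_left.2 fun z hz1 hz2 => by
          have h7 : t' ≤ ℓ z := hz1
          have h8 : ℓ z ≤ s := hz2
          linarith) u (y - Q y) hu (fun b hb => ?_)
    have hb' : s < ℓ b := not_le.1 hb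
    refine h3 H T' {w | s ≤ ℓ (starRingEnd ℂ w)} y (starRingEnd ℂ b) σ (h2 H T' _ hRed').1 hy ?_
    have hopen : IsOpen {w : ℂ | s < ℓ (starRingEnd ℂ w)} :=
      isOpen_lt continuous_const (hℓ.comp hconj)
    have hsub : {w : ℂ | s < ℓ (starRingEnd ℂ w)} ⊆ {w : ℂ | s ≤ ℓ (starRingEnd ℂ w)} := by
      intro w hw
      have hw' : s < ℓ (starRingEnd ℂ w) := hw
      exact hw'.le
    apply interior_maximal hsub hopen
    show s < ℓ (starRingEnd ℂ (starRingEnd ℂ b))
    rw [Complex.conj_conj]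
    exact hb'
  have e3 : P2 = Q * P2 := by
    have h5 := congrArg ContinuousLinearMap.adjoint e2
    rw [hP2, PP_adj] at h5
    rw [← hP2] at h5
    have h6 : ContinuousLinearMap.adjoint (P2 * Q) = Q * P2 := by
      show ContinuousLinearMap.adjoint (P2.comp Q) = Q * P2
      rw [ContinuousLinearMap.adjoint_comp, hQ, hP2, PP_adj, PP_adj]
      rfl
    rw [h6] at h5
    exact h5
  have e4 : P (P2 x) = 0 := by
    rw [e3]
    exact e1 (P2 x)
  -- (3)
  have e5 : P x = P (x - P2 x) := by rw [map_sub, e4, sub_zero]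
  rw [e5]
  apply loc_map T P (h2 H T _ hRed).1
  refine h3 H T {z | t' ≤ ℓ z} x a σ (h2 H T _ hRed).1 hx ?_
  have hsub : {w : ℂ | t' < ℓ w} ⊆ {w : ℂ | t' ≤ ℓ w} := by
    intro w hw
    have hw' : t' < ℓ w := hw
    exact hw'.le
  exact interior_maximal hsub (isOpen_lt continuous_const hℓ) ht'a

end Pool.Agent.TH227.RD.RD5
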